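import Mathlib
import Pool.Agent.H81.NC.StepIn
import Pool.Agent.H47.NC.HalfRec

set_option autoImplicit false
open Finset

/-! Four given strands from outside hit a hole of radius `k`: probability `≤ C (k/R)^(5/4)` in every
environment whose random labels contain the box of radius `R` (`p = 1/2`). -/

namespace Pool.Agent.H65.Four2

open Pool.Agent.H75.Perc Pool.Agent.H75.TwoArm Pool.Agent.H75.Four Pool.Agent.H99.NC
  Pool.Agent.H81.NC

/-- `E` random labels, `W` wired labels, `e'` root edge outside the box of radius `R` -/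
structure EnvH (R L : ℤ) (E W : Finset (ℤ × ℤ)) (e' : ℤ × ℤ) : Prop where
  RE : H75.TwoArm.BB R ⊆ E
  EL : E ⊆ H75.TwoArm.BB (L - 1)
  WL : W ⊆ H75.TwoArm.BB (L - 1)
  WE : Disjoint W E
  odd : ∀ a ∈ E, (a.1 + a.2) % 2 = 1
  he : (e'.1 + e'.2) % 2 = 1
  heL : e' ∈ H75.TwoArm.BB (L - 1)
  heE : e' ∉ E
  heW : e' ∉ W

/-- the four strands of `e'` hit the hole `BB k` -/
noncomputable def hv (L : ℤ) (E W : Finset (ℤ × ℤ)) (e' : ℤ × ℤ) (k : ℤ) : ℝ :=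
  PrP (cp (1 / 2)) E (fun ω => A4 (H75.TwoArm.BB L \ H75.TwoArm.BB k) e' (ω ∪ W))

lemma cpb : Pb (cp (1 / 2) : ℤ × ℤ → ℝ) := cp_Pb (by norm_num) (by norm_num)

lemma hv_mono {L : ℤ} {E W : Finset (ℤ × ℤ)} {e' : ℤ × ℤ} {k k' : ℤ} (h : k ≤ k') :
    hv L E W e' k ≤ hv L E W e' k' :=
  PrP_mono cpb fun _ _ h1 => A4_mono (sdiff_subset_sdiff (Subset.refl _) (BB_mono' h)) h1

lemma hv_le_one {L : ℤ} {E W : Finset (ℤ × ℤ)} {e' : ℤ × ℤ} {k : ℤ} : hv L E W e' k ≤ 1 :=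
  PrP_le_one cpb _ _

/-- path from the centre to the outside, cut at the boundary of the box -/
lemma co_bd {R : ℤ} {κ : Finset (ℤ × ℤ)} {u v : ℤ × ℤ} (h : Co κ u v)
    (hu : |u.1| ≤ R ∧ |u.2| ≤ R) (hv : R ≤ |v.1| ∨ R ≤ |v.2|) :
    ∃ p : ℤ × ℤ, (|p.1| = R ∨ |p.2| = R) ∧ Co (κ ∩ H75.TwoArm.BB R) u p := by
  by_cases hu' : |u.1| = R ∨ |u.2| = R
  · exact ⟨u, hu', Co.refl _ _⟩
  obtain ⟨z, z', hz, hz', hzz, hX, -⟩ := exit_co (X := fun p => |p.1| < R ∧ |p.2| < R) h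
    (by omega) (by omega)
  have hb : inB (-R) R (-R) R z ∧ inB (-R) R (-R) R z' := by
    have h1 := unit_cases hzz.1
    rw [abs_lt, abs_lt] at hz
    unfold inB
    omega
  refine ⟨z', ?_, ?_⟩
  · have h1 := unit_cases hzz.1
    rw [abs_lt, abs_lt] at hz hz'
    rw [abs_eq (by omega), abs_eq (by omega)]
    omega
  · have h1 : Co (κ ∩ H75.TwoArm.BB R) u z := by
      unfold H75.TwoArm.BB
      refine CoX.box ?_ hX (by
        have : ¬ (|u.1| = R ∨ |u.2| = R) := hu'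
        omega)
      intro p hp
      rw [abs_lt, abs_lt] at hp
      unfold inB
      omega
    refine Relation.ReflTransGen.tail h1 ⟨hzz.1, mem_inter.2 ⟨hzz.2, ?_⟩⟩
    unfold H75.TwoArm.BB
    exact add_mem_Bx hzz.1 hb.1 hb.2

/-- a pivotal edge in the centre has four arms to the boundary of the box -/
lemma A4_of_Pv {R L : ℤ} (hR : 1 ≤ R) {E W : Finset (ℤ × ℤ)} {e' : ℤ × ℤ}
    (hH : EnvH R L E W e') {e : ℤ × ℤ} (he : (e.1 + e.2) % 2 = 1) (heR : e ∈ H75.TwoArm.BB R)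
    {ω : Finset (ℤ × ℤ)} (h : Pv e' e (ω ∪ W)) : A4 (H75.TwoArm.BB R) e ω := by
  have heB := H75.Four.HOrderAux.mem_BB'.1 heR
  rw [A4_iff_F4 hR he heR]
  unfold Pv at h
  rw [H75.Four.PivAux.vx_zu hH.he, H75.Four.PivAux.vx_zv hH.he] at h
  obtain ⟨h1, h2⟩ := h
  have hne : e ≠ e' := fun h => hH.heE (hH.RE (h ▸ heR))
  have hee := H75.Four.PivAux.eu_ev he
  have hee' := H75.Four.PivAux.eu_ev hH.he
  have hout : e' ∉ H75.TwoArm.BB R := fun h => hH.heE (hH.RE h)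
  -- ends of `e'` are far
  have hfar : (R ≤ |(eu e').1| ∨ R ≤ |(eu e').2|) ∧ (R ≤ |(ev e').1| ∨ R ≤ |(ev e').2|) := by
    rw [H75.Four.HOrderAux.mem_BB'] at hout
    have h3 := hH.he
    unfold eu ev
    simp only
    constructor
    · by_contra h4
      rw [not_or, not_le, not_le, abs_lt, abs_lt] at h4
      apply hout; omega
    · by_contra h4
      rw [not_or, not_le, not_le, abs_lt, abs_lt] at h4
      apply hout; omega
  set κ := ((ω ∪ W).erase e).erase e' with hκ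
  have hins : (insert e (ω ∪ W)).erase e' = insert (eu e + ev e) κ := by
    rw [hee.2, hκ]
    ext l
    simp only [mem_erase, mem_insert]
    constructor
    · rintro ⟨h3, h4 | h4⟩
      · exact Or.inl h4
      · by_cases h5 : l = e
        · exact Or.inl h5
        · exact Or.inr ⟨h3, h5, h4⟩
    · rintro (h3 | ⟨h3, -, h4⟩)
      · exact ⟨fun h => hne (h3.symm.trans h), Or.inl h3⟩
      · exact ⟨h3, Or.inr h4⟩
  rw [hins] at h1
  have hsp := Pool.Agent.H47.NC.split_edge hee.1 h1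
  have er : ∀ {a b}, Co (κ.erase (eu e + ev e)) a b → Co κ a b :=
    fun h => h.mono (erase_subset _ _)
  -- `κ` inside the box is `ω` inside the box
  have hin : κ ∩ H75.TwoArm.BB R = (ω ∩ H75.TwoArm.BB R).erase e := by
    ext l
    rw [hκ]
    simp only [mem_erase, mem_inter, mem_union]
    constructor
    · rintro ⟨⟨h3, h4, h5⟩, h6⟩
      refine ⟨h4, ?_, h6⟩
      rcases h5 with h5 | h5
      · exact h5
      · exact absurd (hH.RE h6) (disjoint_left.1 hH.WE h5)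
    · rintro ⟨h3, h4, h5⟩
      exact ⟨⟨fun h => hout (h ▸ h5), h3, Or.inl h4⟩, h5⟩
  have hbu : |(eu e).1| ≤ R ∧ |(eu e).2| ≤ R := by
    unfold eu; simp only; rw [abs_le, abs_le]; omega
  have hbv : |(ev e).1| ≤ R ∧ |(ev e).2| ≤ R := by
    unfold ev; simp only; rw [abs_le, abs_le]; omega
  have key : ∃ a b, ((a = eu e' ∧ b = ev e') ∨ (a = ev e' ∧ b = eu e')) ∧ Co κ (eu e) a ∧
      Co κ (ev e) b := by
    rcases hsp with h3 | ⟨h3, h4⟩ | ⟨h3, h4⟩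
    · exact absurd (er h3) h2
    · exact ⟨_, _, Or.inl ⟨rfl, rfl⟩, (er h3).symm, er h4⟩
    · exact ⟨_, _, Or.inr ⟨rfl, rfl⟩, er h4, (er h3).symm⟩
  obtain ⟨a, b, hab, ha, hb⟩ := key
  have hfa : R ≤ |a.1| ∨ R ≤ |a.2| := by
    rcases hab with ⟨rfl, -⟩ | ⟨rfl, -⟩
    · exact hfar.1
    · exact hfar.2
  have hfb : R ≤ |b.1| ∨ R ≤ |b.2| := by
    rcases hab with ⟨-, rfl⟩ | ⟨-, rfl⟩
    · exact hfar.2
    · exact hfar.1
  unfold F4
  rw [← hin]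
  refine ⟨co_bd ha hbu hfa, co_bd hb hbv hfb, fun h3 => h2 ?_⟩
  have h4 : Co κ (eu e) (ev e) := h3.mono inter_subset_left
  rcases hab with ⟨rfl, rfl⟩ | ⟨rfl, rfl⟩
  · exact (ha.symm.trans h4).trans hb
  · exact (hb.symm.trans h4.symm).trans ha

lemma uA (m : ℤ) (hm : 1 ≤ m) : Pool.Agent.H47.NC.uP (1 / 2) m =
    PrP (cp (1 / 2)) (H75.TwoArm.BB m) (A4 (H75.TwoArm.BB m) (1, 0)) := by
  have hu1 : IsUnit4 (((1, 0) : ℤ × ℤ) - (0, 0)) := by
    unfold IsUnit4; simp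
  rw [← Pool.Agent.H47.NC.uQ_cp _ hu1, uQ_tr _ hu1 hm]
  rfl

/-- two-sided bound for the four arms of the edge `(1,0)` -/
lemma u_bounds : ∃ c C : ℝ, 0 < c ∧ 0 < C ∧ ∀ m : ℤ, 1 ≤ m →
    c * (m : ℝ) ^ (-(5 / 4) : ℝ) ≤
      PrP (cp (1 / 2)) (H75.TwoArm.BB m) (A4 (H75.TwoArm.BB m) (1, 0)) ∧
    PrP (cp (1 / 2)) (H75.TwoArm.BB m) (A4 (H75.TwoArm.BB m) (1, 0)) ≤
      C * (m : ℝ) ^ (-(5 / 4) : ℝ) := by
  obtain ⟨c, hc, h1⟩ := Pool.Agent.H47.NC.uP_half_lower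
  obtain ⟨C, h2⟩ := Pool.Agent.H47.NC.uP_half_up (fun c0 ε hc hε => out_CS hc hε)
  refine ⟨c, max C 1, hc, by positivity, fun m hm => ?_⟩
  rw [← uA m hm]
  refine ⟨h1 m hm, (h2 m hm).trans ?_⟩
  exact mul_le_mul_of_nonneg_right (le_max_left _ _) (by positivity)

end Pool.Agent.H65.Four2
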