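import Mathlib
import Pool.Agent.H65.Four2.Env

set_option autoImplicit false
open Finset

/-! The bound `C (k/R)^(5/4)` for four given strands which hit a hole of radius `k`, uniformly in the
environment outside the box of radius `R`. -/

namespace Pool.Agent.H65.Four2

open Pool.Agent.H75.Perc Pool.Agent.H75.TwoArm Pool.Agent.H75.Four Pool.Agent.H99.NC
  Pool.Agent.H81.NC

lemma e10 : (((1, 0) : ℤ × ℤ).1 + ((1, 0) : ℤ × ℤ).2) % 2 = 1 := by norm_num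

lemma e10B {n : ℤ} (hn : 1 ≤ n) : ((1, 0) : ℤ × ℤ) ∈ H75.TwoArm.BB n := by
  rw [HOrderAux.mem_BB']; simp only; omega

/-- powers -/
lemma rp_mono {a b : ℝ} (ha : 0 < a) (hab : a ≤ b) : b ^ (-(5 / 4) : ℝ) ≤ a ^ (-(5 / 4) : ℝ) :=
  Real.rpow_le_rpow_of_nonpos ha hab (by norm_num)

/-- separated exits at all scales -/
lemma insep_lower : ∃ (c : ℝ) (Λ : ℤ), 0 < c ∧ 1 ≤ Λ ∧ ∀ s a : ℤ, 3 ≤ s → a = Λ * s →
    c * ((364 * s + 8 * a - 2 : ℤ) : ℝ) ^ (-(5 / 4) : ℝ) ≤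
      PrP (cp (1 / 2)) (H75.TwoArm.BB (364 * s + 8 * a - 2))
        (InSep (364 * s + 8 * a - 2) s (45 + Λ) (1, 0)) := by
  obtain ⟨c0, hc0, hR⟩ := Pool.Agent.H47.NC.RSM_half
  obtain ⟨c, C, hc, hC, hu⟩ := u_bounds
  set ε : ℝ := c / (64 * C) with hε
  have hε0 : 0 < ε := by positivity
  obtain ⟨Λ, hΛ, H⟩ := out_rec (c := c0) (ε := ε) hc0 hε0
  refine ⟨c / 8, Λ, by positivity, hΛ, ?_⟩
  intro s a hs ha
  have ha3 : 3 ≤ a := by rw [ha]; nlinarith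
  set r : ℤ := 364 * s + 8 * a - 2 with hr
  have hRS : RSM (cp (1 / 2)) c0 (2 * r) := by
    have := (RSM_tr (0, 0) (hR (2 * r))).2
    have hqq : (fun e : ℤ × ℤ => cp (1 / 2) (e + (0, 0) + (0, 0))) = cp (1 / 2) := by
      funext e; rfl
    rwa [hqq] at this
  have hsa : Λ * s = a := ha.symm
  have h := H (cp (1 / 2)) s (45 + Λ) r (2 * r) (r / 2) (1, 0) cpb hRS hs (by omega)
    (by rw [hr]; nlinarith) (by rw [hr]; nlinarith) e10 (by omega) (e10B (by omega))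
    (by rw [hsa]; omega) (by rw [hsa]; omega)
  rw [PrP_InSep_local (BB_mono' (by omega)) (1, 0),
    PrP_A4_local (BB_mono' (m := r / 2) (n := 2 * r) (by omega)) (1, 0)] at h
  have h1 := (hu (2 * r) (by omega)).1
  have h2 := (hu (r / 2) (by omega)).2
  have hr0 : (0 : ℝ) < r := by exact_mod_cast (by omega : 0 < r)
  have e1 : (((2 * r : ℤ) : ℝ)) ^ (-(5 / 4) : ℝ) = 2 ^ (-(5 / 4) : ℝ) * (r : ℝ) ^ (-(5 / 4) : ℝ) := by
    push_cast
    rw [Real.mul_rpow (by norm_num) hr0.le]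
  have e2 : (((r / 2 : ℤ)) : ℝ) ^ (-(5 / 4) : ℝ) ≤ (1 / 4 : ℝ) ^ (-(5 / 4) : ℝ) * (r : ℝ) ^ (-(5 / 4) : ℝ) := by
    rw [← Real.mul_rpow (by norm_num) hr0.le]
    apply rp_mono (by positivity)
    have h3 : r ≤ 4 * (r / 2) := by omega
    have h4 : (r : ℝ) ≤ 4 * ((r / 2 : ℤ) : ℝ) := by exact_mod_cast h3
    linarith
  have e3 : (1 / 4 : ℝ) ≤ 2 ^ (-(5 / 4) : ℝ) := by
    calc (1 / 4 : ℝ) = 2 ^ (-2 : ℝ) := by
          rw [Real.rpow_neg (by norm_num)]; norm_num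
      _ ≤ 2 ^ (-(5 / 4) : ℝ) := Real.rpow_le_rpow_of_exponent_le (by norm_num) (by norm_num)
  have e4 : (1 / 4 : ℝ) ^ (-(5 / 4) : ℝ) ≤ 8 := by
    have h5 : (1 / 4 : ℝ) ^ (-(5 / 4) : ℝ) = 2 ^ (5 / 2 : ℝ) := by
      rw [show (1 / 4 : ℝ) = 2 ^ (-2 : ℝ) by rw [Real.rpow_neg (by norm_num)]; norm_num,
        ← Real.rpow_mul (by norm_num)]
      norm_num
    rw [h5]
    calc (2 : ℝ) ^ (5 / 2 : ℝ) ≤ 2 ^ (3 : ℝ) :=
          Real.rpow_le_rpow_of_exponent_le (by norm_num) (by norm_num)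
      _ = 8 := by norm_num
  set X : ℝ := (r : ℝ) ^ (-(5 / 4) : ℝ) with hX
  have hX0 : 0 < X := by positivity
  rw [e1] at h1
  have g1 : c * (1 / 4 * X) ≤ PrP (cp (1 / 2)) (H75.TwoArm.BB (2 * r))
      (A4 (H75.TwoArm.BB (2 * r)) (1, 0)) :=
    le_trans (mul_le_mul_of_nonneg_left (mul_le_mul_of_nonneg_right e3 hX0.le) hc.le) h1
  have g2 : PrP (cp (1 / 2)) (H75.TwoArm.BB (r / 2)) (A4 (H75.TwoArm.BB (r / 2)) (1, 0)) ≤
      C * (8 * X) :=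
    h2.trans (mul_le_mul_of_nonneg_left (e2.trans (mul_le_mul_of_nonneg_right e4 hX0.le)) hC.le)
  have g3 : ε * PrP (cp (1 / 2)) (H75.TwoArm.BB (r / 2)) (A4 (H75.TwoArm.BB (r / 2)) (1, 0)) ≤
      c / 8 * X := by
    refine (mul_le_mul_of_nonneg_left g2 hε0.le).trans (le_of_eq ?_)
    rw [hε]
    field_simp
    ring
  have g4 : c * (1 / 4 * X) = c / 8 * X + c / 8 * X := by ring
  rw [g4] at g1
  linarith

/-- one step of the recursion inwards -/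
lemma hole_step : ∃ (C : ℝ) (D : ℤ), 0 < C ∧ 1 ≤ D ∧ ∀ (R L : ℤ) (E W : Finset (ℤ × ℤ))
    (e' : ℤ × ℤ), EnvH R L E W e' → ∀ k : ℤ, D ≤ k → 4 * k ≤ R →
    hv L E W e' k ≤ C * ((k : ℝ) / R) ^ (5 / 4 : ℝ) + 1 / 16 * hv L E W e' (4 * k) := by
  obtain ⟨c0, hc0, hR⟩ := Pool.Agent.H47.NC.RSM_half
  obtain ⟨c2, Λo, hc2, hΛo, hIS⟩ := insep_lower
  obtain ⟨c1, hc1e⟩ : ∃ c1 : ℝ, c1 = c2 * (1 / 4) := ⟨_, rfl⟩
  have hc1 : 0 < c1 := by rw [hc1e]; positivity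
  obtain ⟨_, C, _, hC, hu⟩ := u_bounds
  obtain ⟨Λi, hΛi, HI⟩ := in_rec (c := c0) (ε := 1 / 16) hc0 (by norm_num)
  -- constants
  obtain ⟨D0, hD0⟩ : ∃ D0 : ℤ, D0 = 4 * (2 * (230 + Λo + Λi) + 1) - Λi := ⟨_, rfl⟩
  obtain ⟨N, hN⟩ : ∃ N : ℕ, N = 4 * (4 * ((2 * (230 + Λo + Λi) + 1) ^ 2).toNat + 8 * CC.card) :=
    ⟨_, rfl⟩
  have hc01 : c0 ≤ 1 := by
    have h := (RSM_tr (0, 0) (hR 1))
    exact h.2.le_one h.1 le_rfl
  have hp : 0 < c0 ^ N := by positivity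
  refine ⟨C * (c1 * c0 ^ N)⁻¹, 3 * D0, by positivity, by omega, ?_⟩
  intro R L E W e' hH k hk hkR
  -- the mesh
  obtain ⟨s, hs⟩ : ∃ s : ℤ, s = k / D0 + 1 := ⟨_, rfl⟩
  have hD0' : 0 < D0 := by omega
  have s1 : k < s * D0 := by
    have := Int.lt_ediv_add_one_mul_self k hD0'
    rw [hs]; exact this
  have s2 : (s - 1) * D0 ≤ k := by
    have := Int.ediv_mul_le k (b := D0) (by omega)
    rw [hs]; simpa using this
  have s3 : 4 ≤ s := by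
    have : 3 ≤ k / D0 := Int.le_ediv_of_mul_le hD0' hk
    omega
  obtain ⟨a, ha⟩ : ∃ a, a = Λo * s := ⟨_, rfl⟩
  obtain ⟨b, hb⟩ : ∃ b, b = Λi * s := ⟨_, rfl⟩
  have hab : 4 ≤ a ∧ 4 ≤ b ∧ s ≤ a ∧ s ≤ b := by
    refine ⟨?_, ?_, ?_, ?_⟩ <;> nlinarith
  have t1 : s * D0 = 1844 * s + 8 * a + 7 * b := by rw [hD0, ha, hb]; ring
  have t2 : (s - 1) * D0 = s * D0 - D0 := by ring
  have t3 : 4 * D0 ≤ s * D0 := by nlinarith
  have t4 : 4 * s * (2 * (230 + Λo + Λi) + 1) = 1844 * s + 8 * a + 8 * b := by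
    rw [ha, hb]; ring
  have t5 : 4 * s * (2 * (45 + Λo) + 1) = 364 * s + 8 * a := by rw [ha]; ring
  rw [t2] at s2
  rw [t1] at s1 s2 t3
  have hmE : H75.TwoArm.BB (4 * k) ⊆ E := (BB_mono' hkR).trans hH.RE
  have hkL : 4 * k ≤ L - 1 := by
    have h1 : ((2 * (4 * k), 2 * (4 * k) - 1) : ℤ × ℤ) ∈ H75.TwoArm.BB (L - 1) :=
      hH.EL (hmE (by rw [HOrderAux.mem_BB']; simp only; omega))
    rw [HOrderAux.mem_BB'] at h1
    simp only at h1
    omega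
  have hqq : (fun e : ℤ × ℤ => cp (1 / 2) (e + (0, 0) + (0, 0))) = cp (1 / 2) := by
    funext e; rfl
  have hRS : RSM (cp (1 / 2)) c0 (4 * k) := by
    have := (RSM_tr (0, 0) (hR (4 * k))).2
    rwa [hqq] at this
  -- inwards
  have hI := HI (cp (1 / 2)) s (230 + Λo + Λi) k (1844 * s + 8 * a + 8 * b + 2) (4 * k) L e' E W cpb
    hRS (by omega) (by omega) (by rw [t4]) (by rw [t4]; omega) hH.he (by omega)
    (by rw [← hb]; omega) (by rw [← hb]; omega) hmE hH.EL hH.WL hH.odd hH.heL hH.WE hH.heE hH.heW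
  -- gluing
  have hJ := JOIN cpb hc0.le hc01 (s := s) (R0 := 45 + Λo) (K0 := 230 + Λo + Λi)
    (r := 364 * s + 8 * a - 2) (k := 1844 * s + 8 * a + 8 * b + 2) (L := L) (by omega) (by omega)
    (by omega) (by rw [t5]; omega) (by rw [t4]; omega) (by omega) (hRS.mono (by omega)) e10 hH.he
    (e10B (by omega)) ((BB_mono' (by omega)).trans hmE) hH.EL hH.WL hH.heL hH.WE hH.heE hH.heW
  rw [PrP_InSep_local ((BB_mono' (by omega)).trans hmE) (1, 0), ← hN] at hJ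
  have hS := hIS s a (by omega) ha
  -- pivotal
  have hP : PrP (cp (1 / 2)) E (fun ω => Pv e' (1, 0) (ω ∪ W)) ≤ C * (R : ℝ) ^ (-(5 / 4) : ℝ) := by
    refine le_trans ?_ (hu R (by omega)).2
    rw [← PrP_A4_local hH.RE (1, 0)]
    exact PrP_mono cpb fun ω _ h => A4_of_Pv (by omega) hH e10 (e10B (by omega)) h
  have hk0 : (0 : ℝ) < k := by exact_mod_cast (by omega : 0 < k)
  have hR0 : (0 : ℝ) < R := by exact_mod_cast (by omega : 0 < R)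
  have hr0 : (0 : ℝ) < ((364 * s + 8 * a - 2 : ℤ) : ℝ) := by exact_mod_cast (by omega)
  have hS' : c1 * (k : ℝ) ^ (-(5 / 4) : ℝ) ≤ PrP (cp (1 / 2))
      (H75.TwoArm.BB (364 * s + 8 * a - 2)) (InSep (364 * s + 8 * a - 2) s (45 + Λo) (1, 0)) := by
    have e3 : (1 / 4 : ℝ) ≤ 2 ^ (-(5 / 4) : ℝ) := by
      calc (1 / 4 : ℝ) = 2 ^ (-2 : ℝ) := by
            rw [Real.rpow_neg (by norm_num)]; norm_num
        _ ≤ 2 ^ (-(5 / 4) : ℝ) := Real.rpow_le_rpow_of_exponent_le (by norm_num) (by norm_num)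
    have e5 : (2 * (k : ℝ)) ^ (-(5 / 4) : ℝ) ≤
        ((364 * s + 8 * a - 2 : ℤ) : ℝ) ^ (-(5 / 4) : ℝ) := by
      apply rp_mono hr0
      exact_mod_cast (by omega : 364 * s + 8 * a - 2 ≤ 2 * k)
    rw [Real.mul_rpow (by norm_num) hk0.le] at e5
    have hK0 : 0 < (k : ℝ) ^ (-(5 / 4) : ℝ) := by positivity
    refine le_trans ?_ hS
    rw [hc1e, mul_assoc]
    exact mul_le_mul_of_nonneg_left ((mul_le_mul_of_nonneg_right e3 hK0.le).trans e5) hc2.le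
  set O := PrP (cp (1 / 2)) E (fun ω => OutSep (1844 * s + 8 * a + 8 * b + 2) s (230 + Λo + Λi)
    (H75.TwoArm.BB L \ H75.TwoArm.BB (1844 * s + 8 * a + 8 * b + 2)) e' (ω ∪ W)) with hO
  set I := PrP (cp (1 / 2)) (H75.TwoArm.BB (364 * s + 8 * a - 2))
    (InSep (364 * s + 8 * a - 2) s (45 + Λo) (1, 0)) with hIdef
  have hO0 : 0 ≤ O := PrP_nonneg cpb _ _
  have hOb : O * (c1 * (k : ℝ) ^ (-(5 / 4) : ℝ) * c0 ^ N) ≤ C * (R : ℝ) ^ (-(5 / 4) : ℝ) := by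
    calc O * (c1 * (k : ℝ) ^ (-(5 / 4) : ℝ) * c0 ^ N) ≤ O * (I * c0 ^ N) :=
          mul_le_mul_of_nonneg_left (mul_le_mul_of_nonneg_right hS' hp.le) hO0
      _ = O * I * c0 ^ N := by ring
      _ ≤ _ := hJ.trans hP
  have hOf : O ≤ C * (c1 * c0 ^ N)⁻¹ * ((k : ℝ) / R) ^ (5 / 4 : ℝ) := by
    rw [Real.div_rpow hk0.le hR0.le]
    have e1 : (k : ℝ) ^ (-(5 / 4) : ℝ) = ((k : ℝ) ^ (5 / 4 : ℝ))⁻¹ := Real.rpow_neg hk0.le _
    have e2 : (R : ℝ) ^ (-(5 / 4) : ℝ) = ((R : ℝ) ^ (5 / 4 : ℝ))⁻¹ := Real.rpow_neg hR0.le _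
    rw [e1, e2] at hOb
    have k0 : 0 < (k : ℝ) ^ (5 / 4 : ℝ) := by positivity
    have r0 : 0 < (R : ℝ) ^ (5 / 4 : ℝ) := by positivity
    set x := (k : ℝ) ^ (5 / 4 : ℝ)
    set y := (R : ℝ) ^ (5 / 4 : ℝ)
    have h1 : O * (c1 * x⁻¹ * c0 ^ N) * (x * (c1 * c0 ^ N)⁻¹) ≤ C * y⁻¹ * (x * (c1 * c0 ^ N)⁻¹) :=
      mul_le_mul_of_nonneg_right hOb (by positivity)
    have h2 : O * (c1 * x⁻¹ * c0 ^ N) * (x * (c1 * c0 ^ N)⁻¹) = O := by
      field_simp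
    have h3 : C * y⁻¹ * (x * (c1 * c0 ^ N)⁻¹) = C * (c1 * c0 ^ N)⁻¹ * (x / y) := by
      field_simp
    rw [h2, h3] at h1
    exact h1
  unfold hv
  refine hI.trans ?_
  linarith

/-- **Four given strands hit a hole**: every environment outside of the box of radius `R`. -/
theorem hole_bound : ∃ C : ℝ, 0 < C ∧ ∀ (R L : ℤ) (E W : Finset (ℤ × ℤ)) (e' : ℤ × ℤ),
    EnvH R L E W e' → ∀ k : ℤ, 1 ≤ k → k ≤ R →
    hv L E W e' k ≤ C * ((k : ℝ) / R) ^ (5 / 4 : ℝ) := by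
  obtain ⟨C1, D, hC1, hD, hst⟩ := hole_step
  have e4 : (4 : ℝ) ^ (5 / 4 : ℝ) ≤ 8 := by
    have h5 : (4 : ℝ) ^ (5 / 4 : ℝ) = 2 ^ (5 / 2 : ℝ) := by
      rw [show (4 : ℝ) = 2 ^ (2 : ℝ) by norm_num, ← Real.rpow_mul (by norm_num)]
      norm_num
    rw [h5]
    calc (2 : ℝ) ^ (5 / 2 : ℝ) ≤ 2 ^ (3 : ℝ) :=
          Real.rpow_le_rpow_of_exponent_le (by norm_num) (by norm_num)
      _ = 8 := by norm_num
  set C2 : ℝ := max (2 * C1) 8 with hC2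
  have hC20 : 0 < C2 := lt_of_lt_of_le (by norm_num) (le_max_right _ _)
  have hDr : (1 : ℝ) ≤ D := by exact_mod_cast hD
  -- large holes
  have key : ∀ (R L : ℤ) (E W : Finset (ℤ × ℤ)) (e' : ℤ × ℤ), EnvH R L E W e' → ∀ n : ℕ, ∀ k : ℤ,
      D ≤ k → k ≤ R → R ≤ k + n → hv L E W e' k ≤ C2 * ((k : ℝ) / R) ^ (5 / 4 : ℝ) := by
    intro R L E W e' hH n
    induction n using Nat.strong_induction_on with
    | _ n ih =>
      intro k hk hkR hn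
      have hk0 : (0 : ℝ) < k := by exact_mod_cast (by omega : 0 < k)
      have hR0 : (0 : ℝ) < R := by exact_mod_cast (by omega : 0 < R)
      have hq : (0 : ℝ) < (k : ℝ) / R := by positivity
      by_cases h4 : 4 * k ≤ R
      · have h1 := hst R L E W e' hH k hk h4
        have h2 : hv L E W e' (4 * k) ≤ C2 * (((4 * k : ℤ) : ℝ) / R) ^ (5 / 4 : ℝ) := by
          by_cases hn0 : (n : ℤ) ≤ 3 * k
          · exact ih 0 (by omega) (4 * k) (by omega) h4 (by push_cast; omega)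
          · exact ih (n - (3 * k).toNat) (by omega) (4 * k) (by omega) h4 (by omega)
        have h3 : (((4 * k : ℤ) : ℝ) / R) ^ (5 / 4 : ℝ) = 4 ^ (5 / 4 : ℝ) * ((k : ℝ) / R) ^ (5 / 4 : ℝ) := by
          push_cast
          rw [mul_div_assoc, Real.mul_rpow (by norm_num) hq.le]
        rw [h3] at h2
        set X := ((k : ℝ) / R) ^ (5 / 4 : ℝ) with hX
        have hX0 : 0 < X := by positivity
        have h5 : C2 * (4 ^ (5 / 4 : ℝ) * X) ≤ C2 * (8 * X) :=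
          mul_le_mul_of_nonneg_left (mul_le_mul_of_nonneg_right e4 hX0.le) hC20.le
        have h6 : 2 * C1 ≤ C2 := le_max_left _ _
        have h7 : 2 * C1 * X ≤ C2 * X := mul_le_mul_of_nonneg_right h6 hX0.le
        linarith
      · have h1 : (1 / 4 : ℝ) ≤ (k : ℝ) / R := by
          rw [le_div_iff₀ hR0]
          have : (R : ℝ) ≤ 4 * k := by exact_mod_cast (by omega : R ≤ 4 * k)
          linarith
        have h2 : (1 / 4 : ℝ) ^ (5 / 4 : ℝ) ≤ ((k : ℝ) / R) ^ (5 / 4 : ℝ) :=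
          Real.rpow_le_rpow (by norm_num) h1 (by norm_num)
        have h3 : (4 : ℝ) ^ (5 / 4 : ℝ) * (1 / 4 : ℝ) ^ (5 / 4 : ℝ) = 1 := by
          rw [← Real.mul_rpow (by norm_num) (by norm_num)]; norm_num
        have h4' : (0 : ℝ) < (1 / 4 : ℝ) ^ (5 / 4 : ℝ) := by positivity
        calc hv L E W e' k ≤ 1 := hv_le_one
          _ = (4 : ℝ) ^ (5 / 4 : ℝ) * (1 / 4 : ℝ) ^ (5 / 4 : ℝ) := h3.symm
          _ ≤ C2 * ((k : ℝ) / R) ^ (5 / 4 : ℝ) :=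
              mul_le_mul (e4.trans (le_max_right _ _)) h2 h4'.le hC20.le
  refine ⟨C2 * (D : ℝ) ^ (5 / 4 : ℝ), by positivity, ?_⟩
  intro R L E W e' hH k hk hkR
  have hk0 : (1 : ℝ) ≤ k := by exact_mod_cast hk
  have hR0 : (0 : ℝ) < R := by exact_mod_cast (by omega : 0 < R)
  rcases le_or_gt D k with h1 | h1
  · refine (key R L E W e' hH (R - k).toNat k h1 hkR (by omega)).trans ?_
    refine mul_le_mul_of_nonneg_right ?_ (by positivity)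
    exact le_mul_of_one_le_right hC20.le (Real.one_le_rpow hDr (by norm_num))
  · rw [mul_assoc, ← Real.mul_rpow (by positivity) (by positivity)]
    have h5 : (D : ℝ) / R ≤ D * ((k : ℝ) / R) := by
      rw [mul_div_assoc']
      exact div_le_div_of_nonneg_right (le_mul_of_one_le_right (by positivity) hk0) hR0.le
    rcases le_or_gt D R with h2 | h2
    · refine (hv_mono (by omega : k ≤ D)).trans ((key R L E W e' hH (R - D).toNat D le_rfl h2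
        (by omega)).trans ?_)
      refine mul_le_mul_of_nonneg_left (Real.rpow_le_rpow (by positivity) h5 (by norm_num)) hC20.le
    · have h6 : (1 : ℝ) ≤ D * ((k : ℝ) / R) := by
        refine le_trans ?_ h5
        rw [le_div_iff₀ hR0, one_mul]
        exact_mod_cast h2.le
      calc hv L E W e' k ≤ 1 := hv_le_one
        _ ≤ C2 * 1 := by
            rw [mul_one]; exact le_trans (by norm_num) (le_max_right (2 * C1) 8)
        _ ≤ _ := mul_le_mul_of_nonneg_left (Real.one_le_rpow h6 (by norm_num)) hC20.le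

end Pool.Agent.H65.Four2
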