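import Mathlib
import Pool.Agent.H65.Four2.Hole
import Pool.Agent.H49.Q1.Harnack

set_option autoImplicit false
open Finset

/-! Two crossing clusters of an annulus are made into the strands of a root edge by wires outside. -/

namespace Pool.Agent.H65.Four2

open Pool.Agent.H75.Perc Pool.Agent.H75.TwoArm Pool.Agent.H75.Four Pool.Agent.H99.NC
  Pool.Agent.H81.NC

/-- boundary vertices of the square of radius `R` -/
def sph (R : ℤ) (v : ℤ × ℤ) : Prop := |v.1| ≤ R ∧ |v.2| ≤ R ∧ (|v.1| = R ∨ |v.2| = R)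

/-- outward direction -/
def dr (R : ℤ) (v : ℤ × ℤ) : ℤ × ℤ :=
  if v.1 = R then (1, 0) else if v.1 = -R then (-1, 0) else if v.2 = R then (0, 1) else (0, -1)

lemma dr_cases {R : ℤ} (hR : 1 ≤ R) {v : ℤ × ℤ} (hv : sph R v) :
    (v.1 = R ∧ -R ≤ v.2 ∧ v.2 ≤ R ∧ dr R v = (1, 0)) ∨
    (v.1 = -R ∧ -R ≤ v.2 ∧ v.2 ≤ R ∧ dr R v = (-1, 0)) ∨
    (-R < v.1 ∧ v.1 < R ∧ v.2 = R ∧ dr R v = (0, 1)) ∨
    (-R < v.1 ∧ v.1 < R ∧ v.2 = -R ∧ dr R v = (0, -1)) := by
  unfold sph at hv
  rw [abs_le, abs_le, abs_eq (by omega), abs_eq (by omega)] at hv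
  unfold dr
  by_cases h1 : v.1 = R
  · left; rw [if_pos h1]; exact ⟨h1, hv.2.1.1, hv.2.1.2, rfl⟩
  by_cases h2 : v.1 = -R
  · right; left; rw [if_neg h1, if_pos h2]; exact ⟨h2, hv.2.1.1, hv.2.1.2, rfl⟩
  by_cases h3 : v.2 = R
  · right; right; left; rw [if_neg h1, if_neg h2, if_pos h3]
    exact ⟨by omega, by omega, h3, rfl⟩
  · right; right; right; rw [if_neg h1, if_neg h2, if_neg h3]
    exact ⟨by omega, by omega, by omega, rfl⟩

/-- first and second outer neighbours -/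
def q1 (R : ℤ) (v : ℤ × ℤ) : ℤ × ℤ := v + dr R v
def q2 (R : ℤ) (v : ℤ × ℤ) : ℤ × ℤ := v + dr R v + dr R v

/-- the ring of radius `S` -/
noncomputable def Rg (S : ℤ) : Finset (ℤ × ℤ) :=
  (Bx (-S) S S S ∪ Bx (-S) S (-S) (-S)) ∪ (Bx S S (-S) S ∪ Bx (-S) (-S) (-S) S)

lemma Rg_conn {S : ℤ} (hS : 1 ≤ S) {u v : ℤ × ℤ} (hu : sph S u) (hv : sph S v) :
    Co (Rg S) u v := by
  have key : ∀ u : ℤ × ℤ, sph S u → Co (Rg S) u (S, S) := by
    intro u hu
    unfold sph at hu
    rw [abs_le, abs_le, abs_eq (by omega), abs_eq (by omega)] at hu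
    have top : ∀ u v : ℤ × ℤ, inB (-S) S S S u → inB (-S) S S S v → Co (Rg S) u v :=
      fun u v h1 h2 => (H49.Q1.Bx_conn h1 h2).mono (by
        unfold Rg; exact subset_union_left.trans subset_union_left)
    have bot : ∀ u v : ℤ × ℤ, inB (-S) S (-S) (-S) u → inB (-S) S (-S) (-S) v → Co (Rg S) u v :=
      fun u v h1 h2 => (H49.Q1.Bx_conn h1 h2).mono (by
        unfold Rg; exact subset_union_right.trans subset_union_left)
    have rgt : ∀ u v : ℤ × ℤ, inB S S (-S) S u → inB S S (-S) S v → Co (Rg S) u v :=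
      fun u v h1 h2 => (H49.Q1.Bx_conn h1 h2).mono (by
        unfold Rg; exact subset_union_left.trans subset_union_right)
    have lft : ∀ u v : ℤ × ℤ, inB (-S) (-S) (-S) S u → inB (-S) (-S) (-S) S v → Co (Rg S) u v :=
      fun u v h1 h2 => (H49.Q1.Bx_conn h1 h2).mono (by
        unfold Rg; exact subset_union_right.trans subset_union_right)
    rcases hu with ⟨h1, h2, (h3 | h3) | (h3 | h3)⟩
    · exact rgt _ _ (by unfold inB; omega) (by unfold inB; simp only; omega)
    · exact (lft u (-S, S) (by unfold inB; omega) (by unfold inB; simp only; omega)).trans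
        (top _ _ (by unfold inB; simp only; omega) (by unfold inB; simp only; omega))
    · exact top _ _ (by unfold inB; omega) (by unfold inB; simp only; omega)
    · exact (bot u (S, -S) (by unfold inB; omega) (by unfold inB; simp only; omega)).trans
        (rgt _ _ (by unfold inB; simp only; omega) (by unfold inB; simp only; omega))
  exact (key u hu).trans (key v hv).symm

lemma mem_Rg {S : ℤ} {l : ℤ × ℤ} (h : l ∈ Rg S) : l ∈ H75.TwoArm.BB S ∧
    (l.1 = 2 * S ∨ l.1 = -(2 * S) ∨ l.2 = 2 * S ∨ l.2 = -(2 * S)) := by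
  unfold Rg at h
  rw [HOrderAux.mem_BB']
  rcases mem_union.1 h with h | h <;> rcases mem_union.1 h with h | h <;> rw [mem_Bx] at h <;> omega

/-- geometry of the radial labels -/
lemma radial {R : ℤ} (hR : 1 ≤ R) {v : ℤ × ℤ} (hv : sph R v) :
    IsUnit4 (q1 R v - v) ∧ IsUnit4 (q2 R v - q1 R v) ∧ sph (R + 2) (q2 R v) ∧
    v + q1 R v ∈ H75.TwoArm.BB (R + 1) ∧ v + q1 R v ∉ H75.TwoArm.BB R ∧
    q1 R v + q2 R v ∈ H75.TwoArm.BB (R + 2) ∧ q1 R v + q2 R v ∉ H75.TwoArm.BB (R + 1) ∧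
    (|(q1 R v).1| = R + 1 ∨ |(q1 R v).2| = R + 1) := by
  rcases dr_cases hR hv with ⟨h1, h2, h3, h4⟩ | ⟨h1, h2, h3, h4⟩ | ⟨h1, h2, h3, h4⟩ |
    ⟨h1, h2, h3, h4⟩ <;>
  · unfold q1 q2 sph IsUnit4
    rw [h4, HOrderAux.mem_BB', HOrderAux.mem_BB', HOrderAux.mem_BB', HOrderAux.mem_BB']
    simp only [Prod.ext_iff, Prod.fst_add, Prod.snd_add, Prod.fst_sub, Prod.snd_sub]
    rw [abs_le, abs_le, abs_eq (by omega), abs_eq (by omega), abs_eq (by omega), abs_eq (by omega)]
    omega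

/-- the radial labels determine the vertex -/
lemma radial_inj {R : ℤ} (hR : 1 ≤ R) {v w : ℤ × ℤ} (hv : sph R v) (hw : sph R w) :
    (q1 R v + q2 R v = q1 R w + q2 R w → v = w) ∧ (q1 R v = q1 R w → v = w) := by
  unfold q1 q2
  rcases dr_cases hR hv with ⟨h1, h2, h3, h4⟩ | ⟨h1, h2, h3, h4⟩ | ⟨h1, h2, h3, h4⟩ |
    ⟨h1, h2, h3, h4⟩ <;>
  rcases dr_cases hR hw with ⟨k1, k2, k3, k4⟩ | ⟨k1, k2, k3, k4⟩ | ⟨k1, k2, k3, k4⟩ |
    ⟨k1, k2, k3, k4⟩ <;>
  · rw [h4, k4]
    simp only [Prod.ext_iff, Prod.fst_add, Prod.snd_add]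
    omega

/-- the wires -/
noncomputable def Wr (R : ℤ) (ξ : Finset (ℤ × ℤ)) (v1 v2 : ℤ × ℤ) : Finset (ℤ × ℤ) :=
  ξ ∪ {v1 + q1 R v1, v2 + q1 R v2, q1 R v2 + q2 R v2} ∪ Rg (R + 2)

lemma mem_Wr {R : ℤ} {ξ : Finset (ℤ × ℤ)} {v1 v2 l : ℤ × ℤ} : l ∈ Wr R ξ v1 v2 ↔
    l ∈ ξ ∨ l = v1 + q1 R v1 ∨ l = v2 + q1 R v2 ∨ l = q1 R v2 + q2 R v2 ∨ l ∈ Rg (R + 2) := by
  unfold Wr
  simp only [mem_union, mem_insert, mem_singleton]
  tauto

lemma envH_wr {R ρ : ℤ} (hρ : 1 ≤ ρ) (hρR : ρ ≤ R) {ξ : Finset (ℤ × ℤ)}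
    (hξ : ξ ⊆ H75.TwoArm.BB R \ H75.TwoArm.BB ρ) {v1 v2 : ℤ × ℤ} (h1 : sph R v1) (h2 : sph R v2)
    (hne : v1 ≠ v2) :
    EnvH ρ (R + 4) (H75.TwoArm.BB ρ) (Wr R ξ v1 v2) (q1 R v1 + q2 R v1) := by
  have hR : 1 ≤ R := by omega
  obtain ⟨a1, a2, a3, a4, a5, a6, a7, a8⟩ := radial hR h1
  obtain ⟨b1, b2, b3, b4, b5, b6, b7, b8⟩ := radial hR h2
  refine ⟨Subset.refl _, BB_mono' (by omega), ?_, ?_, ?_, ?_, ?_, ?_, ?_⟩
  · intro l hl
    rcases mem_Wr.1 hl with hl | rfl | rfl | rfl | hl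
    · exact BB_mono' (by omega) (mem_sdiff.1 (hξ hl)).1
    · exact BB_mono' (by omega) a4
    · exact BB_mono' (by omega) b4
    · exact BB_mono' (by omega) b6
    · exact BB_mono' (by omega) (mem_Rg hl).1
  · rw [disjoint_left]
    intro l hl hlρ
    rcases mem_Wr.1 hl with hl | rfl | rfl | rfl | hl
    · exact (mem_sdiff.1 (hξ hl)).2 hlρ
    · exact a5 (BB_mono' (by omega) hlρ)
    · exact b5 (BB_mono' (by omega) hlρ)
    · exact b7 (BB_mono' (by omega) hlρ)
    · have := (mem_Rg hl).2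
      rw [HOrderAux.mem_BB'] at hlρ
      omega
  · intro l hl
    exact (HOrderAux.mem_BB'.1 hl).2.2
  · exact (HOrderAux.mem_BB'.1 a6).2.2
  · exact BB_mono' (by omega) a6
  · exact fun h => a7 (BB_mono' (by omega) h)
  · intro h
    rcases mem_Wr.1 h with h | h | h | h | h
    · exact a7 (BB_mono' (by omega) (mem_sdiff.1 (hξ h)).1)
    · exact a7 (h ▸ a4)
    · exact a7 (h ▸ b4)
    · exact hne ((radial_inj hR h1 h2).1 h)
    · have h3 := (mem_Rg h).2
      rcases dr_cases hR h1 with ⟨c1, c2, c3, c4⟩ | ⟨c1, c2, c3, c4⟩ | ⟨c1, c2, c3, c4⟩ |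
        ⟨c1, c2, c3, c4⟩ <;>
      · unfold q1 q2 at h3
        rw [c4] at h3
        simp only [Prod.fst_add, Prod.snd_add] at h3
        omega

/-- two different crossing clusters give four strands of the root edge -/
lemma A4_wr {R ρ r : ℤ} (hr : 1 ≤ r) (hrρ : r ≤ ρ) (hρR : ρ ≤ R) {ξ ω : Finset (ℤ × ℤ)}
    (hξ : ξ ⊆ H75.TwoArm.BB R \ H75.TwoArm.BB ρ) (hω : ω ⊆ H75.TwoArm.BB ρ)
    {v1 v2 u1 u2 : ℤ × ℤ} (h1 : sph R v1) (h2 : sph R v2)
    (hu1 : |u1.1| ≤ r ∧ |u1.2| ≤ r) (hu2 : |u2.1| ≤ r ∧ |u2.2| ≤ r)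
    (c1 : Co ((ω ∪ ξ) \ H75.TwoArm.BB r) u1 v1) (c2 : Co ((ω ∪ ξ) \ H75.TwoArm.BB r) u2 v2)
    (hn : ¬ Co ((ω ∪ ξ) \ H75.TwoArm.BB r) v1 v2) :
    A4 (H75.TwoArm.BB (R + 4) \ H75.TwoArm.BB r) (q1 R v1 + q2 R v1) (ω ∪ Wr R ξ v1 v2) := by
  have hR : 1 ≤ R := by omega
  have hne : v1 ≠ v2 := fun h => hn (h ▸ Co.refl _ _)
  have hE := envH_wr (by omega : 1 ≤ ρ) hρR hξ h1 h2 hne
  obtain ⟨a1, a2, a3, a4, a5, a6, a7, a8⟩ := radial hR h1
  obtain ⟨b1, b2, b3, b4, b5, b6, b7, b8⟩ := radial hR h2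
  set e' := q1 R v1 + q2 R v1 with he'
  have hHole : Hole r (R + 4) e' (ω ∪ Wr R ξ v1 v2) :=
    ⟨hr, hE.he, hE.heL, fun h => a7 (BB_mono' (by omega) h),
      union_subset (hω.trans hE.EL) hE.WL⟩
  have hends := Pool.Agent.H47.NC.ends_unique (H75.Four.PivAux.eu_ev hE.he).1 a2
    ((H75.Four.PivAux.eu_ev hE.he).2.symm ▸ he'.symm)
  rw [A4_hole_iff hHole (by omega)]
  have g1 : Co ((ω ∪ Wr R ξ v1 v2 ∪ H75.TwoArm.BB r).erase e') (q1 R v1) (q2 R v1) := by
    have m1 : ∀ l, l ∈ ω ∪ Wr R ξ v1 v2 ∪ H75.TwoArm.BB r → l ≠ e' →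
        l ∈ (ω ∪ Wr R ξ v1 v2 ∪ H75.TwoArm.BB r).erase e' := fun l h3 h4 => mem_erase.2 ⟨h4, h3⟩
    have nW : ∀ l ∈ Wr R ξ v1 v2, l ≠ e' := fun l h3 h4 => hE.heW (h4 ▸ h3)
    have nB : ∀ l ∈ H75.TwoArm.BB R, l ≠ e' := fun l h3 h4 => a7 (BB_mono' (by omega) (h4 ▸ h3))
    have sub1 : (ω ∪ ξ) \ H75.TwoArm.BB r ⊆ (ω ∪ Wr R ξ v1 v2 ∪ H75.TwoArm.BB r).erase e' := by
      intro l hl
      rcases mem_union.1 (mem_sdiff.1 hl).1 with h3 | h3
      · exact m1 l (mem_union_left _ (mem_union_left _ h3)) (nB l (BB_mono' hρR (hω h3)))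
      · exact m1 l (mem_union_left _ (mem_union_right _ (mem_Wr.2 (Or.inl h3))))
          (nB l (mem_sdiff.1 (hξ h3)).1)
    have sub2 : H75.TwoArm.BB r ⊆ (ω ∪ Wr R ξ v1 v2 ∪ H75.TwoArm.BB r).erase e' := by
      intro l hl
      exact m1 l (mem_union_right _ hl) (nB l (BB_mono' (by omega) hl))
    have sub3 : Rg (R + 2) ⊆ (ω ∪ Wr R ξ v1 v2 ∪ H75.TwoArm.BB r).erase e' := by
      intro l hl
      have h3 : l ∈ Wr R ξ v1 v2 := mem_Wr.2 (Or.inr (Or.inr (Or.inr (Or.inr hl))))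
      exact m1 l (mem_union_left _ (mem_union_right _ h3)) (nW l h3)
    have w1 : Co ((ω ∪ Wr R ξ v1 v2 ∪ H75.TwoArm.BB r).erase e') v1 (q1 R v1) := by
      have h3 : v1 + q1 R v1 ∈ Wr R ξ v1 v2 := mem_Wr.2 (Or.inr (Or.inl rfl))
      exact Relation.ReflTransGen.single ⟨a1, m1 _ (mem_union_left _ (mem_union_right _ h3))
        (nW _ h3)⟩
    have w2 : Co ((ω ∪ Wr R ξ v1 v2 ∪ H75.TwoArm.BB r).erase e') v2 (q1 R v2) := by
      have h3 : v2 + q1 R v2 ∈ Wr R ξ v1 v2 := mem_Wr.2 (Or.inr (Or.inr (Or.inl rfl)))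
      exact Relation.ReflTransGen.single ⟨b1, m1 _ (mem_union_left _ (mem_union_right _ h3))
        (nW _ h3)⟩
    have w3 : Co ((ω ∪ Wr R ξ v1 v2 ∪ H75.TwoArm.BB r).erase e') (q1 R v2) (q2 R v2) := by
      have h3 : q1 R v2 + q2 R v2 ∈ Wr R ξ v1 v2 :=
        mem_Wr.2 (Or.inr (Or.inr (Or.inr (Or.inl rfl))))
      exact Relation.ReflTransGen.single ⟨b2, m1 _ (mem_union_left _ (mem_union_right _ h3))
        (nW _ h3)⟩
    have w4 := (Rg_conn (by omega) b3 a3).mono sub3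
    have w5 : Co ((ω ∪ Wr R ξ v1 v2 ∪ H75.TwoArm.BB r).erase e') u1 u2 := by
      refine (H49.Q1.Bx_conn (a := -r) (b := r) (c := -r) (d := r) ?_ ?_).mono sub2
      · rw [abs_le, abs_le] at hu1; unfold inB; omega
      · rw [abs_le, abs_le] at hu2; unfold inB; omega
    exact (((((w1.symm.trans (c1.mono sub1).symm).trans w5).trans (c2.mono sub1)).trans w2).trans
      w3).trans w4
  have g2 : ¬ Co (((ω ∪ Wr R ξ v1 v2) \ H75.TwoArm.BB r).erase e') (q1 R v1) (q2 R v1) := by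
    have inv : ∀ z, Co (((ω ∪ Wr R ξ v1 v2) \ H75.TwoArm.BB r).erase e') (q1 R v1) z →
        z = q1 R v1 ∨ ((|z.1| ≤ R ∧ |z.2| ≤ R) ∧ Co ((ω ∪ ξ) \ H75.TwoArm.BB r) v1 z) := by
      intro z hz
      induction hz with
      | refl => exact Or.inl rfl
      | @tail y z _ hyz ih =>
        have hlab := mem_erase.1 hyz.2
        have hlab2 := mem_sdiff.1 hlab.2
        have hu := unit_cases hyz.1
        rcases ih with rfl | ⟨hyR, hy⟩
        · -- from `q1 v1`
          right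
          have hcase : q1 R v1 + z = v1 + q1 R v1 := by
            rcases mem_union.1 hlab2.1 with h3 | h3
            · exfalso
              have h4 := hω h3
              rw [HOrderAux.mem_BB'] at h4
              simp only [Prod.fst_add, Prod.snd_add] at h4
              rw [abs_eq (by omega), abs_eq (by omega)] at a8
              omega
            · rcases mem_Wr.1 h3 with h4 | h4 | h4 | h4 | h4
              · exfalso
                have h5 := (mem_sdiff.1 (hξ h4)).1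
                rw [HOrderAux.mem_BB'] at h5
                simp only [Prod.fst_add, Prod.snd_add] at h5
                rw [abs_eq (by omega), abs_eq (by omega)] at a8
                omega
              · exact h4
              · exfalso
                rcases Pool.Agent.H47.NC.ends_unique b1 hyz.1 h4 with ⟨h5, -⟩ | ⟨h5, -⟩
                · have h6 := h2.1
                  have h7 := h2.2.1
                  rw [← h5, abs_le] at h6 h7
                  rw [abs_eq (by omega), abs_eq (by omega)] at a8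
                  omega
                · exact hne ((radial_inj hR h1 h2).2 h5)
              · exfalso
                rcases Pool.Agent.H47.NC.ends_unique b2 hyz.1 h4 with ⟨h5, -⟩ | ⟨h5, -⟩
                · exact hne ((radial_inj hR h1 h2).2 h5)
                · have h6 := b3.2.2
                  rw [← h5, abs_eq (by omega), abs_eq (by omega)] at h6
                  rcases dr_cases hR h1 with ⟨c1, c2, c3, c4⟩ | ⟨c1, c2, c3, c4⟩ |
                    ⟨c1, c2, c3, c4⟩ | ⟨c1, c2, c3, c4⟩ <;>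
                  · unfold q1 at h6
                    rw [c4] at h6
                    simp only [Prod.fst_add, Prod.snd_add] at h6
                    omega
              · exfalso
                have h5 := (mem_Rg h4).2
                rcases dr_cases hR h1 with ⟨c1, c2, c3, c4⟩ | ⟨c1, c2, c3, c4⟩ |
                  ⟨c1, c2, c3, c4⟩ | ⟨c1, c2, c3, c4⟩ <;>
                · unfold q1 at h5 hu
                  rw [c4] at h5 hu
                  simp only [Prod.fst_add, Prod.snd_add] at h5 hu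
                  omega
          have hz1 : z = v1 := by
            rw [add_comm v1] at hcase
            exact add_left_cancel hcase
          rw [hz1]
          exact ⟨⟨h1.1, h1.2.1⟩, Co.refl _ _⟩
        · rcases mem_union.1 hlab2.1 with h3 | h3
          · right
            refine ⟨?_, Relation.ReflTransGen.tail hy ⟨hyz.1, mem_sdiff.2
              ⟨mem_union_left _ h3, hlab2.2⟩⟩⟩
            have h4 := hω h3
            rw [HOrderAux.mem_BB'] at h4
            simp only [Prod.fst_add, Prod.snd_add] at h4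
            rw [abs_le, abs_le]
            omega
          · rcases mem_Wr.1 h3 with h4 | h4 | h4 | h4 | h4
            · right
              refine ⟨?_, Relation.ReflTransGen.tail hy ⟨hyz.1, mem_sdiff.2
                ⟨mem_union_right _ h4, hlab2.2⟩⟩⟩
              have h5 := (mem_sdiff.1 (hξ h4)).1
              rw [HOrderAux.mem_BB'] at h5
              simp only [Prod.fst_add, Prod.snd_add] at h5
              rw [abs_le, abs_le]
              omega
            · left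
              rcases Pool.Agent.H47.NC.ends_unique a1 hyz.1 h4 with ⟨-, h5⟩ | ⟨h5, -⟩
              · exact h5
              · exfalso
                rw [h5, abs_le, abs_le] at hyR
                rw [abs_eq (by omega), abs_eq (by omega)] at a8
                omega
            · exfalso
              rcases Pool.Agent.H47.NC.ends_unique b1 hyz.1 h4 with ⟨h5, -⟩ | ⟨h5, -⟩
              · exact hn (h5 ▸ hy)
              · rw [h5, abs_le, abs_le] at hyR
                rw [abs_eq (by omega), abs_eq (by omega)] at b8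
                omega
            · exfalso
              rcases Pool.Agent.H47.NC.ends_unique b2 hyz.1 h4 with ⟨h5, -⟩ | ⟨h5, -⟩
              · rw [h5, abs_le, abs_le] at hyR
                rw [abs_eq (by omega), abs_eq (by omega)] at b8
                omega
              · have h6 := b3.2.2
                rw [← h5, abs_eq (by omega), abs_eq (by omega)] at h6
                rw [abs_le, abs_le] at hyR
                omega
            · exfalso
              have h5 := (mem_Rg h4).2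
              simp only [Prod.fst_add, Prod.snd_add] at h5
              rw [abs_le, abs_le] at hyR
              omega
    intro h
    rcases inv _ h with h3 | ⟨h3, -⟩
    · have h4 := unit_cases a2
      rw [h3] at h4
      omega
    · have h4 := a3.2.2
      rw [abs_eq (by omega), abs_eq (by omega)] at h4
      rw [abs_le, abs_le] at h3
      omega
  rcases hends with ⟨h3, h4⟩ | ⟨h3, h4⟩
  · rw [← h3, ← h4]; exact ⟨g1, g2⟩
  · rw [← h3, ← h4]; exact ⟨g1.symm, fun h => g2 h.symm⟩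

end Pool.Agent.H65.Four2
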