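import Mathlib
import Pool.Agent.H65.Four2.Wire
import Pool.Agent.H60.Q1.Count

set_option autoImplicit false
open Finset

/-! **Four arms in an annulus**, exponent `5/4`: two different open crossing clusters of the annulus
between the radii `r` and `R` exist with probability at most `C (r/R)^(5/4)` (`p = 1/2`). -/

namespace Pool.Agent.H65.Four2

open Pool.Agent.H75.Perc Pool.Agent.H75.TwoArm Pool.Agent.H75.Four Pool.Agent.H99.NC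
  Pool.Agent.H81.NC Pool.Agent.H49.Perc Pool.Agent.H60.Q1

/-- `v1`, `v2` on the outer boundary are joined to the inner box but not to each other inside the
annulus -/
def Y4 (r : ℤ) (ω : Finset (ℤ × ℤ)) (v1 v2 : ℤ × ℤ) : Prop :=
  (∃ u : ℤ × ℤ, (|u.1| ≤ r ∧ |u.2| ≤ r) ∧ Co (ω \ H75.TwoArm.BB r) u v1) ∧
  (∃ u : ℤ × ℤ, (|u.1| ≤ r ∧ |u.2| ≤ r) ∧ Co (ω \ H75.TwoArm.BB r) u v2) ∧
  ¬ Co (ω \ H75.TwoArm.BB r) v1 v2

/-- four arms: two different crossing clusters of the annulus between the radii `r` and `R` -/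
def X4 (r R : ℤ) (ω : Finset (ℤ × ℤ)) : Prop :=
  ∃ v1 v2, sph R v1 ∧ sph R v2 ∧ Y4 r ω v1 v2

/-- representative of the cluster of `v` on the sphere -/
noncomputable def rep (R : ℤ) (ξ : Finset (ℤ × ℤ)) (v : ℤ × ℤ) : ℤ × ℤ :=
  Classical.epsilon (fun v' => sph R v' ∧ Co ξ v v')

lemma rep_spec {R : ℤ} {ξ : Finset (ℤ × ℤ)} {v : ℤ × ℤ} (hv : sph R v) :
    sph R (rep R ξ v) ∧ Co ξ v (rep R ξ v) :=
  Classical.epsilon_spec (p := fun v' => sph R v' ∧ Co ξ v v') ⟨v, hv, Co.refl _ _⟩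

lemma rep_eq {R : ℤ} {ξ : Finset (ℤ × ℤ)} {v w : ℤ × ℤ} (h : Co ξ v w) :
    rep R ξ v = rep R ξ w := by
  unfold rep
  congr 1
  funext v'
  rw [eq_iff_iff]
  exact ⟨fun h1 => ⟨h1.1, h.symm.trans h1.2⟩, fun h1 => ⟨h1.1, h.trans h1.2⟩⟩

open Classical in
/-- representatives of the crossing clusters of the annulus between `ρ` and `R` -/
noncomputable def Rep (ρ R : ℤ) (ξ : Finset (ℤ × ℤ)) : Finset (ℤ × ℤ) :=
  (((Icc (-R) R) ×ˢ (Icc (-R) R)).filter (fun v => sph R v ∧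
    ∃ w : ℤ × ℤ, (|w.1| ≤ ρ ∧ |w.2| ≤ ρ) ∧ Co ξ w v)).image (rep R ξ)

lemma mem_Rep {ρ R : ℤ} {ξ : Finset (ℤ × ℤ)} {v : ℤ × ℤ} : v ∈ Rep ρ R ξ ↔
    ∃ a, (sph R a ∧ ∃ w : ℤ × ℤ, (|w.1| ≤ ρ ∧ |w.2| ≤ ρ) ∧ Co ξ w a) ∧ rep R ξ a = v := by
  classical
  unfold Rep
  rw [mem_image]
  constructor
  · rintro ⟨a, h1, h2⟩
    exact ⟨a, (mem_filter.1 h1).2, h2⟩
  · rintro ⟨a, h1, h2⟩
    refine ⟨a, mem_filter.2 ⟨?_, h1⟩, h2⟩
    have := h1.1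
    unfold sph at this
    rw [abs_le, abs_le] at this
    rw [mem_product, mem_Icc, mem_Icc]
    exact ⟨this.1, this.2.1⟩

lemma Rep_spec {ρ R : ℤ} {ξ : Finset (ℤ × ℤ)} {v : ℤ × ℤ} (h : v ∈ Rep ρ R ξ) :
    sph R v ∧ ∃ w : ℤ × ℤ, (|w.1| ≤ ρ ∧ |w.2| ≤ ρ) ∧ Co ξ w v := by
  obtain ⟨a, ⟨h1, w, h2, h3⟩, rfl⟩ := mem_Rep.1 h
  have := rep_spec (ξ := ξ) h1
  exact ⟨this.1, w, h2, h3.trans this.2⟩

lemma Rep_sep {ρ R : ℤ} {ξ : Finset (ℤ × ℤ)} {v w : ℤ × ℤ} (hv : v ∈ Rep ρ R ξ)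
    (hw : w ∈ Rep ρ R ξ) (h : v ≠ w) : ¬ Co ξ v w := by
  obtain ⟨a, ⟨h1, -⟩, rfl⟩ := mem_Rep.1 hv
  obtain ⟨b, ⟨h2, -⟩, rfl⟩ := mem_Rep.1 hw
  intro hc
  exact h (rep_eq (((rep_spec h1).2.trans hc).trans (rep_spec h2).2.symm))

/-- many representatives give many disjoint arms -/
lemma Rep_arms {ρ R : ℤ} {n : ℕ} (hR : 4 * ρ ≤ R) {ξ : Finset (ℤ × ℤ)}
    (h : n ≤ (Rep ρ R ξ).card) : Arms n (Arm1 (0, 0) ρ (4 ^ 1 * ρ)) ξ := by
  obtain ⟨t, ht1, ht2⟩ := exists_subset_card_eq h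
  set e := (t.equivFinOfCardEq ht2).symm with he
  refine ⟨fun i => cmp ξ (e i : t), fun i => cmp_sub _ _, ?_, ?_⟩
  · intro i j hij
    have hne : ((e i : t) : ℤ × ℤ) ≠ (e j : t) := fun h => hij (e.injective (Subtype.ext h))
    exact cmp_disj (Rep_sep (ht1 (e i).2) (ht1 (e j).2) hne)
  · intro i
    obtain ⟨h1, w, h2, h3⟩ := Rep_spec (ht1 (e i).2)
    refine ⟨w, ((e i : t) : ℤ × ℤ), by simpa using h2.1, by simpa using h2.2, ?_,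
      (cmp_co h3.symm).symm⟩
    unfold sph at h1
    simp only [sub_zero]
    omega

lemma sq_eq_sum (k : ℕ) : ((k : ℝ)) ^ 2 = ∑ n ∈ range k, (2 * (n : ℝ) + 1) := by
  induction k with
  | zero => simp
  | succ k ih => rw [sum_range_succ, ← ih]; push_cast; ring

/-- second moment of the number of crossing clusters -/
lemma second_moment : ∃ K : ℝ, 0 < K ∧ ∀ (ρ R : ℤ) (E : Finset (ℤ × ℤ)), 1 ≤ ρ → 4 * ρ ≤ R →
    (∀ e ∈ E, (e.1 + e.2) % 2 = 1) →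
    Ex (cp (1 / 2)) E (fun ξ => ((Rep ρ R ξ).card : ℝ) ^ 2) ≤ K := by
  classical
  obtain ⟨δ, h0, h1, hk⟩ := k_arms
  have hx0 : 0 ≤ 1 - δ := by linarith
  have hx1 : 1 - δ < 1 := by linarith
  have hs : Summable (fun n : ℕ => (2 * (n : ℝ) + 1) * (1 - δ) ^ n) := by
    have s1 : Summable (fun n : ℕ => (n : ℝ) ^ 1 * (1 - δ) ^ n) :=
      summable_pow_mul_geometric_of_norm_lt_one 1 (by rw [Real.norm_eq_abs, abs_of_nonneg hx0]; exact hx1)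
    have s2 : Summable (fun n : ℕ => (1 - δ) ^ n) := summable_geometric_of_lt_one hx0 hx1
    refine ((s1.mul_left 2).add s2).congr fun n => ?_
    ring
  refine ⟨∑' n : ℕ, (2 * (n : ℝ) + 1) * (1 - δ) ^ n, ?_, ?_⟩
  · exact hs.tsum_pos (fun n => by positivity) 0 (by simp)
  intro ρ R E hρ hR hE
  obtain ⟨M, hM⟩ : ∃ M : ℕ, ∀ ξ : Finset (ℤ × ℤ), (Rep ρ R ξ).card ≤ M :=
    ⟨((Icc (-R) R) ×ˢ (Icc (-R) R)).card, fun ξ => card_image_le.trans (card_filter_le _ _)⟩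
  have e1 : ∀ ξ : Finset (ℤ × ℤ), ((Rep ρ R ξ).card : ℝ) ^ 2 =
      ∑ n ∈ range M, (2 * (n : ℝ) + 1) * ind (n + 1 ≤ (Rep ρ R ξ).card) := by
    intro ξ
    rw [sq_eq_sum]
    have h2 : (range M).filter (fun n => n + 1 ≤ (Rep ρ R ξ).card) = range (Rep ρ R ξ).card := by
      ext n
      rw [mem_filter, mem_range, mem_range]
      have := hM ξ
      omega
    rw [← h2, sum_filter]
    refine sum_congr rfl fun n _ => ?_
    split_ifs with h3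
    · rw [ind_true h3, mul_one]
    · rw [ind_false h3, mul_zero]
  have e2 : Ex (cp (1 / 2)) E (fun ξ => ((Rep ρ R ξ).card : ℝ) ^ 2) =
      ∑ n ∈ range M, (2 * (n : ℝ) + 1) *
        PrP (cp (1 / 2)) E (fun ξ => n + 1 ≤ (Rep ρ R ξ).card) := by
    rw [Ex_congr fun ξ _ => e1 ξ, Ex_sum]
    exact sum_congr rfl fun n _ => Ex_smul _ _ _ _
  rw [e2]
  have e3 : ∀ n ∈ range M, (2 * (n : ℝ) + 1) *
      PrP (cp (1 / 2)) E (fun ξ => n + 1 ≤ (Rep ρ R ξ).card) ≤ (2 * (n : ℝ) + 1) * (1 - δ) ^ n := by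
    intro n _
    refine mul_le_mul_of_nonneg_left ?_ (by positivity)
    have h3 : PrP (cp (1 / 2)) E (fun ξ => n + 1 ≤ (Rep ρ R ξ).card) ≤
        Pr E (Arms (n + 1) (Arm1 (0, 0) ρ (4 ^ 1 * ρ))) := by
      have : PrP (cp (1 / 2)) E (Arms (n + 1) (Arm1 (0, 0) ρ (4 ^ 1 * ρ))) =
        Pr E (Arms (n + 1) (Arm1 (0, 0) ρ (4 ^ 1 * ρ))) := PrP_half _ _
      rw [← this]
      exact PrP_mono cpb fun ξ _ h => Rep_arms hR h
    refine h3.trans ((hk E hE (0, 0) ρ hρ 1 (n + 1)).trans ?_)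
    rw [one_mul]
    exact pow_le_pow_of_le_one hx0 hx1.le (Nat.le_succ n)
  exact (sum_le_sum e3).trans (hs.sum_le_tsum _ fun n _ => by positivity)

end Pool.Agent.H65.Four2
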