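import Mathlib
import Pool.Agent.H65.Four2.Ann

set_option autoImplicit false
open Finset

/-! **Four arms in an annulus**, exponent `5/4`: the final bounds. -/

namespace Pool.Agent.H65.Four2

open Pool.Agent.H75.Perc Pool.Agent.H75.TwoArm Pool.Agent.H75.Four Pool.Agent.H99.NC
  Pool.Agent.H81.NC Pool.Agent.H49.Perc Pool.Agent.H60.Q1

/-- given the outside of the box of radius `ρ` -/
lemma cond_bound {C : ℝ} (hC : 0 < C)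
    (hC' : ∀ (R L : ℤ) (E W : Finset (ℤ × ℤ)) (e' : ℤ × ℤ), EnvH R L E W e' → ∀ k : ℤ, 1 ≤ k →
      k ≤ R → hv L E W e' k ≤ C * ((k : ℝ) / R) ^ (5 / 4 : ℝ)) {r ρ R : ℤ} (hr : 1 ≤ r)
    (hrρ : r ≤ ρ) (hρR : ρ ≤ R) {ξ : Finset (ℤ × ℤ)}
    (hξ : ξ ⊆ H75.TwoArm.BB R \ H75.TwoArm.BB ρ) :
    PrP (cp (1 / 2)) (H75.TwoArm.BB ρ) (fun ω => X4 r R (ω ∪ ξ)) ≤
      ((Rep ρ R ξ).card : ℝ) ^ 2 * (C * ((r : ℝ) / ρ) ^ (5 / 4 : ℝ)) := by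
  classical
  set B := C * ((r : ℝ) / ρ) ^ (5 / 4 : ℝ) with hB
  have hr0 : (0 : ℝ) < r := by exact_mod_cast (by omega : 0 < r)
  have hρ0 : (0 : ℝ) < ρ := by exact_mod_cast (by omega : 0 < ρ)
  have hB0 : 0 ≤ B := by positivity
  have hξr : ∀ l ∈ ξ, l ∉ H75.TwoArm.BB r := fun l hl h =>
    (mem_sdiff.1 (hξ hl)).2 (BB_mono' hrρ h)
  -- reduction to representatives
  have key : ∀ ω, ω ⊆ H75.TwoArm.BB ρ → X4 r R (ω ∪ ξ) →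
      ∃ p ∈ Rep ρ R ξ ×ˢ Rep ρ R ξ, p.1 ≠ p.2 ∧ Y4 r (ω ∪ ξ) p.1 p.2 := by
    rintro ω hω ⟨v1, v2, h1, h2, ⟨u1, hu1, c1⟩, ⟨u2, hu2, c2⟩, hn⟩
    have hsub : ξ ⊆ (ω ∪ ξ) \ H75.TwoArm.BB r := fun l hl =>
      mem_sdiff.2 ⟨mem_union_right _ hl, hξr l hl⟩
    have hrep : ∀ u v : ℤ × ℤ, (|u.1| ≤ r ∧ |u.2| ≤ r) → sph R v →
        Co ((ω ∪ ξ) \ H75.TwoArm.BB r) u v → rep R ξ v ∈ Rep ρ R ξ ∧
          Co ((ω ∪ ξ) \ H75.TwoArm.BB r) v (rep R ξ v) := by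
      intro u v hu hv hc
      obtain ⟨w, w1, w2, w3⟩ := H75.Four.ArmAux.last_exit (r := ρ) hc ⟨by omega, by omega⟩
      have w4 : Co ξ w v := by
        refine w3.mono ?_
        intro l hl
        have h3 := mem_sdiff.1 hl
        have h4 := mem_sdiff.1 h3.1
        rcases mem_union.1 h4.1 with h5 | h5
        · exact absurd (hω h5) h3.2
        · exact h5
      exact ⟨mem_Rep.2 ⟨v, ⟨hv, w, ⟨w1, w2⟩, w4⟩, rfl⟩, (rep_spec hv).2.mono hsub⟩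
    obtain ⟨r1, r2⟩ := hrep u1 v1 hu1 h1 c1
    obtain ⟨r3, r4⟩ := hrep u2 v2 hu2 h2 c2
    have hn' : ¬ Co ((ω ∪ ξ) \ H75.TwoArm.BB r) (rep R ξ v1) (rep R ξ v2) := fun h =>
      hn ((r2.trans h).trans r4.symm)
    refine ⟨(rep R ξ v1, rep R ξ v2), mem_product.2 ⟨r1, r3⟩, fun h => hn' ?_,
      ⟨u1, hu1, c1.trans r2⟩, ⟨u2, hu2, c2.trans r4⟩, hn'⟩
    simp only at h
    rw [h]
    exact Co.refl _ _
  have hpair : ∀ p ∈ Rep ρ R ξ ×ˢ Rep ρ R ξ,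
      PrP (cp (1 / 2)) (H75.TwoArm.BB ρ) (fun ω => p.1 ≠ p.2 ∧ Y4 r (ω ∪ ξ) p.1 p.2) ≤ B := by
    intro p hp
    obtain ⟨hp1, hp2⟩ := mem_product.1 hp
    by_cases hne : p.1 = p.2
    · have : PrP (cp (1 / 2)) (H75.TwoArm.BB ρ) (fun ω => p.1 ≠ p.2 ∧ Y4 r (ω ∪ ξ) p.1 p.2) = 0 := by
        have h3 : PrP (cp (1 / 2)) (H75.TwoArm.BB ρ)
            (fun ω => p.1 ≠ p.2 ∧ Y4 r (ω ∪ ξ) p.1 p.2) =
            Ex (cp (1 / 2)) (H75.TwoArm.BB ρ) (fun _ => 0) :=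
          Ex_congr fun ω _ => ind_false fun h => h.1 hne
        rw [h3, Ex_const]
      rw [this]
      exact hB0
    · have s1 := (Rep_spec hp1).1
      have s2 := (Rep_spec hp2).1
      have hE := envH_wr (by omega : 1 ≤ ρ) hρR hξ s1 s2 hne
      refine le_trans (PrP_mono cpb fun ω hω h => ?_) (hC' _ _ _ _ _ hE r hr hrρ)
      obtain ⟨-, ⟨u1, hu1, c1⟩, ⟨u2, hu2, c2⟩, hn⟩ := h
      exact A4_wr hr hrρ hρR hξ hω s1 s2 hu1 hu2 c1 c2 hn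
  calc PrP (cp (1 / 2)) (H75.TwoArm.BB ρ) (fun ω => X4 r R (ω ∪ ξ))
      ≤ PrP (cp (1 / 2)) (H75.TwoArm.BB ρ) (fun ω => ∃ p ∈ Rep ρ R ξ ×ˢ Rep ρ R ξ,
          p.1 ≠ p.2 ∧ Y4 r (ω ∪ ξ) p.1 p.2) := PrP_mono cpb key
    _ ≤ ∑ p ∈ Rep ρ R ξ ×ˢ Rep ρ R ξ, PrP (cp (1 / 2)) (H75.TwoArm.BB ρ)
          (fun ω => p.1 ≠ p.2 ∧ Y4 r (ω ∪ ξ) p.1 p.2) := PrP_exists_le cpb _ _ _
    _ ≤ ∑ _p ∈ Rep ρ R ξ ×ˢ Rep ρ R ξ, B := sum_le_sum hpair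
    _ = ((Rep ρ R ξ).card : ℝ) ^ 2 * B := by
        rw [sum_const, nsmul_eq_mul, card_product]
        push_cast
        ring

/-- centred at the origin -/
theorem four_annulus0 : ∃ C : ℝ, 0 < C ∧ ∀ r R : ℤ, 1 ≤ r → r ≤ R →
    PrP (cp (1 / 2)) (H75.TwoArm.BB R) (X4 r R) ≤ C * ((r : ℝ) / R) ^ (5 / 4 : ℝ) := by
  obtain ⟨C, hC, hH⟩ := hole_bound
  obtain ⟨K, hK, hM⟩ := second_moment
  have e8 : (8 : ℝ) ^ (5 / 4 : ℝ) ≤ 16 := by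
    calc (8 : ℝ) ^ (5 / 4 : ℝ) = 2 ^ (15 / 4 : ℝ) := by
          rw [show (8 : ℝ) = 2 ^ (3 : ℝ) by norm_num, ← Real.rpow_mul (by norm_num)]
          norm_num
      _ ≤ 2 ^ (4 : ℝ) := Real.rpow_le_rpow_of_exponent_le (by norm_num) (by norm_num)
      _ = 16 := by norm_num
  refine ⟨16 * (K * C + 1), by positivity, ?_⟩
  intro r R hr hrR
  have hr0 : (0 : ℝ) < r := by exact_mod_cast (by omega : 0 < r)
  have hR0 : (0 : ℝ) < R := by exact_mod_cast (by omega : 0 < R)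
  have hq : 0 < (r : ℝ) / R := by positivity
  have hX0 : 0 < ((r : ℝ) / R) ^ (5 / 4 : ℝ) := by positivity
  by_cases h8 : 4 * r ≤ R
  · set ρ : ℤ := R / 4 with hρ
    have hrρ : r ≤ ρ := by omega
    have hρR : 4 * ρ ≤ R := by omega
    have hρ0 : (0 : ℝ) < ρ := by exact_mod_cast (by omega : 0 < ρ)
    have hsplit : PrP (cp (1 / 2)) (H75.TwoArm.BB R) (X4 r R) =
        Ex (cp (1 / 2)) (H75.TwoArm.BB R \ H75.TwoArm.BB ρ) (fun ξ =>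
          PrP (cp (1 / 2)) (H75.TwoArm.BB ρ) (fun ω => X4 r R (ω ∪ ξ))) := by
      unfold PrP
      rw [Ex_split (cp (1 / 2)) (BB_mono' (by omega : ρ ≤ R)), Ex_swap]
    rw [hsplit]
    have h1 : Ex (cp (1 / 2)) (H75.TwoArm.BB R \ H75.TwoArm.BB ρ) (fun ξ =>
          PrP (cp (1 / 2)) (H75.TwoArm.BB ρ) (fun ω => X4 r R (ω ∪ ξ))) ≤
        Ex (cp (1 / 2)) (H75.TwoArm.BB R \ H75.TwoArm.BB ρ) (fun ξ =>
          ((Rep ρ R ξ).card : ℝ) ^ 2 * (C * ((r : ℝ) / ρ) ^ (5 / 4 : ℝ))) :=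
      Ex_mono cpb fun ξ hξ => cond_bound hC hH hr hrρ (by omega) hξ
    rw [Ex_smul'] at h1
    have h2 := hM ρ R (H75.TwoArm.BB R \ H75.TwoArm.BB ρ) (by omega) hρR
      (fun e he => (HOrderAux.mem_BB'.1 (mem_sdiff.1 he).1).2.2)
    have h3 : ((r : ℝ) / ρ) ^ (5 / 4 : ℝ) ≤ 16 * ((r : ℝ) / R) ^ (5 / 4 : ℝ) := by
      have h4 : (r : ℝ) / ρ ≤ 8 * ((r : ℝ) / R) := by
        rw [div_le_iff₀ hρ0]
        have h5 : (R : ℝ) ≤ 8 * ρ := by exact_mod_cast (by omega : R ≤ 8 * ρ)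
        have h6 : 8 * ((r : ℝ) / R) * ρ = r * (8 * ρ / R) := by field_simp
        rw [h6]
        refine le_mul_of_one_le_right hr0.le ?_
        rw [le_div_iff₀ hR0, one_mul]
        exact h5
      refine (Real.rpow_le_rpow (by positivity) h4 (by norm_num)).trans ?_
      rw [Real.mul_rpow (by norm_num) hq.le]
      exact mul_le_mul_of_nonneg_right e8 hX0.le
    have h7 : C * ((r : ℝ) / ρ) ^ (5 / 4 : ℝ) ≤ C * (16 * ((r : ℝ) / R) ^ (5 / 4 : ℝ)) :=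
      mul_le_mul_of_nonneg_left h3 hC.le
    calc _ ≤ Ex (cp (1 / 2)) (H75.TwoArm.BB R \ H75.TwoArm.BB ρ)
          (fun ξ => ((Rep ρ R ξ).card : ℝ) ^ 2) * (C * ((r : ℝ) / ρ) ^ (5 / 4 : ℝ)) := h1
      _ ≤ K * (C * (16 * ((r : ℝ) / R) ^ (5 / 4 : ℝ))) :=
          mul_le_mul h2 h7 (by positivity) hK.le
      _ = 16 * (K * C) * ((r : ℝ) / R) ^ (5 / 4 : ℝ) := by ring
      _ ≤ _ := mul_le_mul_of_nonneg_right (by linarith) hX0.le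
  · have h1 : (1 / 8 : ℝ) ≤ (r : ℝ) / R := by
      rw [le_div_iff₀ hR0]
      have : (R : ℝ) ≤ 8 * r := by exact_mod_cast (by omega : R ≤ 8 * r)
      linarith
    have h2 : (1 / 8 : ℝ) ^ (5 / 4 : ℝ) ≤ ((r : ℝ) / R) ^ (5 / 4 : ℝ) :=
      Real.rpow_le_rpow (by norm_num) h1 (by norm_num)
    have h3 : (8 : ℝ) ^ (5 / 4 : ℝ) * (1 / 8 : ℝ) ^ (5 / 4 : ℝ) = 1 := by
      rw [← Real.mul_rpow (by norm_num) (by norm_num)]; norm_num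
    have h4' : (0 : ℝ) < (1 / 8 : ℝ) ^ (5 / 4 : ℝ) := by positivity
    calc PrP (cp (1 / 2)) (H75.TwoArm.BB R) (X4 r R) ≤ 1 := PrP_le_one cpb _ _
      _ = (8 : ℝ) ^ (5 / 4 : ℝ) * (1 / 8 : ℝ) ^ (5 / 4 : ℝ) := h3.symm
      _ ≤ 16 * (K * C + 1) * ((r : ℝ) / R) ^ (5 / 4 : ℝ) := by
          refine mul_le_mul (e8.trans ?_) h2 h4'.le (by positivity)
          nlinarith [mul_pos hK hC]

end Pool.Agent.H65.Four2
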