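import Mathlib
import Pool.Agent.H65.Four2.Final

set_option autoImplicit false
open Finset

/-! **Four arms in an annulus**, exponent `5/4`, any centre, both colours. -/

namespace Pool.Agent.H65.Four2

open Pool.Agent.H75.Perc Pool.Agent.H75.TwoArm Pool.Agent.H75.Four Pool.Agent.H99.NC
  Pool.Agent.H81.NC Pool.Agent.H47.NC

/-- labels of the annulus around `x` between the radii `r` and `R` -/
noncomputable def An (x : ℤ × ℤ) (r R : ℤ) : Finset (ℤ × ℤ) := Bq x R \ Bq x r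

/-- Two crossings of the annulus `A(x; r, R)` which are not connected inside the annulus (four
alternating arms). -/
def Four (x : ℤ × ℤ) (r R : ℤ) (ω : Finset (ℤ × ℤ)) : Prop :=
  ∃ u1 u2 v1 v2 : ℤ × ℤ, (|u1.1 - x.1| ≤ r ∧ |u1.2 - x.2| ≤ r) ∧
    (|u2.1 - x.1| ≤ r ∧ |u2.2 - x.2| ≤ r) ∧ (R ≤ |v1.1 - x.1| ∨ R ≤ |v1.2 - x.2|) ∧
    (R ≤ |v2.1 - x.1| ∨ R ≤ |v2.2 - x.2|) ∧ Co (ω ∩ An x r R) u1 v1 ∧
    Co (ω ∩ An x r R) u2 v2 ∧ ¬ Co (ω ∩ An x r R) u1 u2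

lemma mem_An {x : ℤ × ℤ} {r R : ℤ} {l : ℤ × ℤ} : l ∈ An x r R ↔ l ∈ Bq x R ∧ l ∉ Bq x r := by
  unfold An; rw [mem_sdiff]

lemma four_tr {x : ℤ × ℤ} {r R : ℤ} (hrR : r ≤ R) {ω : Finset (ℤ × ℤ)}
    (hω : ω ⊆ H75.TwoArm.BB R) (h : Four x r R (ω.map (syT x).G)) : X4 r R ω := by
  have hE : ∀ e, e ∈ An x r R ↔ (syT x).G' e ∈ H75.TwoArm.BB R \ H75.TwoArm.BB r := by
    intro e
    rw [mem_An, mem_sdiff, mem_Bq, mem_Bq, HOrderAux.mem_BB', HOrderAux.mem_BB']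
    simp only [syT]
    omega
  have e1 : ω.map (syT x).G ∩ An x r R = (ω \ H75.TwoArm.BB r).map (syT x).G := by
    rw [(syT x).map_inter ω hE]
    congr 1
    ext l
    rw [mem_inter, mem_sdiff, mem_sdiff]
    exact ⟨fun h => ⟨h.1, h.2.2⟩, fun h => ⟨h.1, hω h.1, h.2⟩⟩
  have hco : ∀ u v : ℤ × ℤ, Co ((ω \ H75.TwoArm.BB r).map (syT x).G) u v ↔
      Co (ω \ H75.TwoArm.BB r) (u - x) (v - x) := by
    intro u v
    have := (syT x).co_iff (ω \ H75.TwoArm.BB r) (u - x) (v - x)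
    simp only [syT, sub_add_cancel] at this
    exact this
  obtain ⟨u1, u2, v1, v2, h1, h2, h3, h4, h5, h6, h7⟩ := h
  rw [e1, hco] at h5 h6 h7
  have hin : ∀ u v : ℤ × ℤ, (|u.1 - x.1| ≤ r ∧ |u.2 - x.2| ≤ r) →
      (R ≤ |v.1 - x.1| ∨ R ≤ |v.2 - x.2|) → Co (ω \ H75.TwoArm.BB r) (u - x) (v - x) →
      sph R (v - x) := by
    intro u v hu hv hc
    have hb := hc.inB (a := -R) (b := R) (c := -R) (d := R) (sdiff_subset.trans hω) (by
      unfold inB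
      rw [abs_le, abs_le] at hu
      simp only [Prod.fst_sub, Prod.snd_sub]
      omega)
    unfold inB at hb
    unfold sph
    simp only [Prod.fst_sub, Prod.snd_sub] at hb ⊢
    rw [abs_le, abs_le]
    refine ⟨hb.1, hb.2, ?_⟩
    have a1 : |v.1 - x.1| ≤ R := abs_le.2 hb.1
    have a2 : |v.2 - x.2| ≤ R := abs_le.2 hb.2
    rcases hv with hv | hv
    · exact Or.inl (le_antisymm a1 hv)
    · exact Or.inr (le_antisymm a2 hv)
  refine ⟨v1 - x, v2 - x, hin u1 v1 h1 h3 h5, hin u2 v2 h2 h4 h6, ⟨u1 - x, h1, h5⟩,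
    ⟨u2 - x, h2, h6⟩, fun h => h7 ((h5.trans h).trans h6.symm)⟩

/-- **Four arms in an annulus.** -/
theorem four_annulus : ∃ C : ℝ, 0 < C ∧ ∀ (x : ℤ × ℤ) (r R : ℤ) (E : Finset (ℤ × ℤ)), 1 ≤ r →
    r ≤ R → Bq x R ⊆ E → Pr E (Four x r R) ≤ C * ((r : ℝ) / R) ^ (5 / 4 : ℝ) := by
  obtain ⟨C, hC, h⟩ := four_annulus0
  refine ⟨C, hC, fun x r R E hr hrR hE => ?_⟩
  have e1 : Pr E (Four x r R) = Pr (Bq x R) (Four x r R) := by
    rw [← Pr_restrict hE]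
    refine Pr_congr fun ω _ => ?_
    unfold Four
    have : ω ∩ Bq x R ∩ An x r R = ω ∩ An x r R := by
      ext l
      rw [mem_inter, mem_inter, mem_inter, mem_An]
      tauto
    rw [this]
  have e2 : Pr (Bq x R) (Four x r R) =
      Pr (H75.TwoArm.BB R) (fun ω => Four x r R (ω.map (syT x).G)) := by
    refine (syT x).Pr ?_ _
    intro e
    rw [mem_Bq, HOrderAux.mem_BB']
    simp only [syT]
    omega
  have e3 : Pr (H75.TwoArm.BB R) (X4 r R) =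
      PrP (cp (1 / 2)) (H75.TwoArm.BB R) (X4 r R) := (PrP_half _ _).symm
  rw [e1, e2]
  refine le_trans (Pr_mono fun ω hω h1 => four_tr hrR hω h1) ?_
  rw [e3]
  exact h r R hr hrR

lemma Pr_du' (E : Finset (ℤ × ℤ)) (A : Finset (ℤ × ℤ) → Prop) :
    Pr E (fun ω => A (du E ω)) = Pr (E.map sh1) A := by
  have h2 : (fun _ : ℤ × ℤ => (1 : ℝ) / 2) = Pool.Agent.H69.NC.dq (fun _ => 1 / 2) := by
    funext e
    unfold Pool.Agent.H69.NC.dq
    norm_num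
  have h3 := Pool.Agent.H69.NC.PQ_du (fun _ => (1 : ℝ) / 2) E A
  rw [← h2] at h3
  rw [Pool.Agent.H69.NC.PQ_eq, Pool.Agent.H69.NC.PQ_eq, PrP_half, PrP_half] at h3
  exact h3

/-- the same for dual crossings -/
theorem four_annulus_dual : ∃ C : ℝ, 0 < C ∧ ∀ (x : ℤ × ℤ) (r R : ℤ) (E : Finset (ℤ × ℤ)), 1 ≤ r →
    r ≤ R → Bq x (R + 1) ⊆ E →
    Pr E (fun ω => Four x r R (du E ω)) ≤ C * ((r : ℝ) / R) ^ (5 / 4 : ℝ) := by
  obtain ⟨C, hC, h⟩ := four_annulus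
  refine ⟨C, hC, fun x r R E hr hrR hE => ?_⟩
  rw [Pr_du']
  refine h x r R _ hr hrR ?_
  intro l hl
  rw [mem_map]
  refine ⟨l - (1, 1), hE ?_, by refine Prod.ext ?_ ?_ <;> simp [sh1]⟩
  rw [mem_Bq] at hl ⊢
  simp only [Prod.fst_sub, Prod.snd_sub]
  omega

end Pool.Agent.H65.Four2
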